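import Mathlib
import Pool.Agent.Results.MP_346ba0_al.CaminaThirdTerm
/-!
# Camina pairs `(G, G_3)` in p-groups of class five: infinite families for every prime `p ≥ 5`

The group `Gp D` of the starting file is defined over a finite field `F` and an extension `K` of
even degree `2 d`; here this is carried out for all finite fields of characteristic `p ≥ 5` and
all `d ≥ 1`, which gives groups of order `|F| ^ (14 d + 1)`.
-/
set_option autoImplicit false

namespace Pool.Agent.Results.MP_346ba0_al.InfiniteFamilies

open Pool.Agent.Results.MP_346ba0_al.CaminaThirdTerm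

lemma exists_data (F K : Type) [Field F] [Field K] [Algebra F K] [Finite K] [Module.Finite F K]
    (h2 : ringChar K ≠ 2) (h3 : (3 : K) ≠ 0) (d : ℕ) (hrank : Module.finrank F K = d + d) :
    Nonempty (Dat F K) := by
  classical
  obtain ⟨nu, hnu⟩ := FiniteField.exists_nonsquare (F := K) h2
  have key : ∀ x y : K, x ^ 2 - nu * y ^ 2 = 0 → x = 0 ∧ y = 0 := by
    intro x y h
    have hy : y = 0 := by
      by_contra hy
      apply hnu
      refine ⟨x / y, ?_⟩
      field_simp
      linear_combination -h
    refine ⟨?_, hy⟩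
    rw [hy] at h
    have : x ^ 2 = 0 := by linear_combination h
    exact pow_eq_zero_iff (two_ne_zero) |>.mp this
  obtain ⟨T, hT⟩ := LinearMap.exists_leftInverse_of_injective
    (Algebra.linearMap F K)
    (LinearMap.ker_eq_bot.mpr (algebraMap F K).injective)
  let B : Module.Basis (Fin d ⊕ Fin d) F K :=
    (Module.finBasisOfFinrankEq F K hrank).reindex finSumFinEquiv.symm
  let b : K →ₗ[F] K →ₗ[F] F :=
    LinearMap.mk₂ F (fun x y => ∑ i : Fin d, B.repr x (Sum.inl i) * B.repr y (Sum.inr i))
      (by intro x y z; simp only [map_add, Finsupp.add_apply, add_mul, Finset.sum_add_distrib])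
      (by intro c x y; simp only [map_smul, Finsupp.smul_apply, smul_eq_mul, mul_assoc, Finset.mul_sum])
      (by intro x y z; simp only [map_add, Finsupp.add_apply, mul_add, Finset.sum_add_distrib])
      (by intro c x y
          simp only [map_smul, Finsupp.smul_apply, smul_eq_mul, Finset.mul_sum]
          refine Finset.sum_congr rfl fun i _ => ?_
          ring)
  have hb : ∀ x y, b x y = ∑ i : Fin d, B.repr x (Sum.inl i) * B.repr y (Sum.inr i) := fun x y => rfl
  refine ⟨{ w := -3 * nu, hw := ?_, hw' := ?_, T := T, T_one := ?_, b := b, hb := ?_ }⟩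
  · intro x y h
    apply key
    have : 3 * (x ^ 2 - nu * y ^ 2) = 0 := by linear_combination h
    exact (mul_eq_zero.mp this).resolve_left h3
  · intro x y h
    obtain ⟨hx, hy⟩ := key x (3 * y) (by linear_combination h)
    exact ⟨hx, (mul_eq_zero.mp hy).resolve_left h3⟩
  · have := LinearMap.congr_fun hT 1
    simpa using this
  · intro u hu t
    have hex : ∃ j, B.repr u j ≠ 0 := by
      by_contra hno
      push Not at hno
      apply hu
      apply B.repr.injective
      ext j
      rw [hno j]; simp
    obtain ⟨j, hj⟩ := hex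
    rcases j with i | i
    · refine ⟨(t / B.repr u (Sum.inl i)) • B (Sum.inr i), ?_⟩
      rw [hb, hb]
      have e1 : ∀ l : Fin d, B.repr ((t / B.repr u (Sum.inl i)) • B (Sum.inr i)) (Sum.inr l) =
          if l = i then t / B.repr u (Sum.inl i) else 0 := by
        intro l
        rw [map_smul, Finsupp.smul_apply, Module.Basis.repr_self, Finsupp.single_apply]
        by_cases hl : l = i
        · simp [hl]
        · have : ¬ (Sum.inr i : Fin d ⊕ Fin d) = Sum.inr l := fun h => hl (Sum.inr.inj h).symm
          simp [hl, this]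
      have e2 : ∀ l : Fin d, B.repr ((t / B.repr u (Sum.inl i)) • B (Sum.inr i)) (Sum.inl l) = 0 := by
        intro l
        rw [map_smul, Finsupp.smul_apply, Module.Basis.repr_self, Finsupp.single_apply]
        simp
      simp only [e1, e2, zero_mul, Finset.sum_const_zero, sub_zero, mul_ite, mul_zero,
        Finset.sum_ite_eq', Finset.mem_univ, if_true]
      exact mul_div_cancel₀ _ hj
    · refine ⟨(-t / B.repr u (Sum.inr i)) • B (Sum.inl i), ?_⟩
      rw [hb, hb]
      have e1 : ∀ l : Fin d, B.repr ((-t / B.repr u (Sum.inr i)) • B (Sum.inl i)) (Sum.inl l) =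
          if l = i then -t / B.repr u (Sum.inr i) else 0 := by
        intro l
        rw [map_smul, Finsupp.smul_apply, Module.Basis.repr_self, Finsupp.single_apply]
        by_cases hl : l = i
        · simp [hl]
        · have : ¬ (Sum.inl i : Fin d ⊕ Fin d) = Sum.inl l := fun h => hl (Sum.inl.inj h).symm
          simp [hl, this]
      have e2 : ∀ l : Fin d, B.repr ((-t / B.repr u (Sum.inr i)) • B (Sum.inl i)) (Sum.inr l) = 0 := by
        intro l
        rw [map_smul, Finsupp.smul_apply, Module.Basis.repr_self, Finsupp.single_apply]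
        simp
      simp only [e1, e2, mul_zero, Finset.sum_const_zero, zero_sub, ite_mul, zero_mul,
        Finset.sum_ite_eq', Finset.mem_univ, if_true]
      rw [div_mul_cancel₀ _ hj, neg_neg]

/-- For every prime `p ≥ 5` and all `k, d ≥ 1` there is a finite `p`-group `G` of order
`p ^ (k (14 d + 1))` and nilpotence class `c = 5` with a Camina pair `(G, N)` such that `N` is
neither `G_{c-1}` nor `G_c`, namely `N = G_3`. -/
theorem result : ∀ p : ℕ, p.Prime → 5 ≤ p → ∀ k d : ℕ, 1 ≤ k → 1 ≤ d →
    ∃ (G : Type) (_ : Group G), Finite G ∧ IsPGroup p G ∧ Nat.card G = p ^ (k * (14 * d + 1)) ∧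
      ∃ (c : ℕ) (N : Subgroup G), c = 5 ∧ lcsTerm G c ≠ ⊥ ∧ lcsTerm G (c + 1) = ⊥ ∧
        IsCaminaPair N ∧ N = lcsTerm G 3 ∧ N ≠ lcsTerm G (c - 1) ∧ N ≠ lcsTerm G c := by
  intro p hp h5 k d hk hd
  have : Fact p.Prime := ⟨hp⟩
  have : NeZero (d + d) := ⟨by omega⟩
  let F := GaloisField p k
  let K := FiniteField.Extension F p (d + d)
  have hcF : Nat.card F = p ^ k := GaloisField.card p k (by omega)
  have hcK : Nat.card K = (p ^ k) ^ (d + d) := by
    rw [FiniteField.natCard_extension, hcF]
  have hrank : Module.finrank F K = d + d := FiniteField.finrank_extension F p (d + d)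
  have hchar : CharP K p := charP_of_injective_algebraMap (algebraMap F K).injective p
  have hne : ∀ m : ℕ, 0 < m → Nat.Coprime m p → (m : K) ≠ 0 := by
    intro m hm hco h
    rw [CharP.cast_eq_zero_iff K p] at h
    have := Nat.Coprime.eq_one_of_dvd hco.symm h
    omega
  have hc2 : Nat.Coprime 2 p := (Nat.coprime_primes Nat.prime_two hp).mpr (by omega)
  have hc3 : Nat.Coprime 3 p := (Nat.coprime_primes Nat.prime_three hp).mpr (by omega)
  have hc12 : Nat.Coprime 12 p := Nat.Coprime.mul_left (Nat.Coprime.mul_left hc2 hc2) hc3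
  have h2 : (2 : K) ≠ 0 := by exact_mod_cast hne 2 (by norm_num) hc2
  have h3 : (3 : K) ≠ 0 := by exact_mod_cast hne 3 (by norm_num) hc3
  have h12 : (12 : K) ≠ 0 := by exact_mod_cast hne 12 (by norm_num) hc12
  have hfinF : Finite F := Nat.finite_of_card_ne_zero (by rw [hcF]; positivity)
  have hfinK : Finite K := Nat.finite_of_card_ne_zero (by rw [hcK]; positivity)
  obtain ⟨D⟩ := exists_data F K (by rw [ringChar.eq K p]; omega) h3 d hrank
  let e : Gp D ≃ K × K × K × K × K × K × K × F :=
    { toFun := fun x => (x.t, x.u, x.m, x.n, x.a, x.b, x.d, x.e)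
      invFun := fun x => ⟨x.1, x.2.1, x.2.2.1, x.2.2.2.1, x.2.2.2.2.1, x.2.2.2.2.2.1,
        x.2.2.2.2.2.2.1, x.2.2.2.2.2.2.2⟩
      left_inv := fun x => rfl
      right_inv := fun x => rfl }
  have hfin : Finite (Gp D) := Finite.of_equiv _ e.symm
  have hcard : Nat.card (Gp D) = p ^ (k * (14 * d + 1)) := by
    rw [Nat.card_congr e]
    simp only [Nat.card_prod, hcK, hcF]
    ring
  obtain ⟨r1, r2, r3, r4, r5, r6⟩ := result_aux D h2 h12
  exact ⟨Gp D, inferInstance, hfin, IsPGroup.of_card hcard, hcard, 5, subN D, rfl, r2, r3, r1, r4,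
    r5, r6⟩

end Pool.Agent.Results.MP_346ba0_al.InfiniteFamilies
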